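import Pool.Agent.H8.AP.Final
import Pool.Agent.H11.FC.Statement

/-!
# The Alexander polynomial criterion for residual torsion-free nilpotence of free-by-cyclic groups
-/

set_option autoImplicit false

namespace Pool.Agent.Results.MP_065d68_al.AlexanderCriterion

open Polynomial Pool.Agent.H11.FC.Statement

/-- Laurent polynomials in `m` variables over `ℚ`: the group algebra of `ℤ^m`. -/
abbrev Laurent (m : ℕ) : Type := MonoidAlgebra ℚ (Multiplicative (Fin m → ℤ))

/-- The affine action of the free group `F_n` on `(Laurent m)^n` given by a homomorphism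
`θ : F_n → ℤ^m`: the generator `x_i` acts by `v ↦ e_i + θ(x_i) v`. -/
noncomputable def foxAction {n m : ℕ}
    (θ : FreeGroup (Fin n) →* Multiplicative (Fin m → ℤ)) :
    FreeGroup (Fin n) →* Equiv.Perm (Fin n → Laurent m) :=
  FreeGroup.lift fun i =>
    { toFun := fun v => Pi.single i 1 +
        MonoidAlgebra.of ℚ (Multiplicative (Fin m → ℤ)) (θ (FreeGroup.of i)) • v
      invFun := fun v =>
        MonoidAlgebra.of ℚ (Multiplicative (Fin m → ℤ)) (θ (FreeGroup.of i))⁻¹ •
          (v - Pi.single i 1)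
      left_inv := fun v => by
        change MonoidAlgebra.of ℚ (Multiplicative (Fin m → ℤ)) (θ (FreeGroup.of i))⁻¹ •
          (Pi.single i 1 +
            MonoidAlgebra.of ℚ (Multiplicative (Fin m → ℤ)) (θ (FreeGroup.of i)) • v -
              Pi.single i 1) = v
        rw [add_sub_cancel_left, smul_smul, ← map_mul, inv_mul_cancel, map_one, one_smul]
      right_inv := fun v => by
        change Pi.single i 1 +
          MonoidAlgebra.of ℚ (Multiplicative (Fin m → ℤ)) (θ (FreeGroup.of i)) •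
            (MonoidAlgebra.of ℚ (Multiplicative (Fin m → ℤ)) (θ (FreeGroup.of i))⁻¹ •
              (v - Pi.single i 1)) = v
        rw [smul_smul, ← map_mul, mul_inv_cancel, map_one, one_smul, add_sub_cancel] }

/-- The vector `(θ(∂f/∂x_1), ..., θ(∂f/∂x_n))` of the Fox derivatives of `f`: the image of `0`
under the affine action. -/
noncomputable def foxDerivatives {n m : ℕ}
    (θ : FreeGroup (Fin n) →* Multiplicative (Fin m → ℤ)) (f : FreeGroup (Fin n)) :
    Fin n → Laurent m :=
  foxAction θ f 0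

/-- The Fox matrix `(θ(∂φ(x_i)/∂x_j))` of an automorphism `φ`. -/
noncomputable def foxMatrix {n m : ℕ}
    (θ : FreeGroup (Fin n) →* Multiplicative (Fin m → ℤ)) (φ : MulAut (FreeGroup (Fin n))) :
    Matrix (Fin n) (Fin n) (Laurent m) :=
  Matrix.of fun i j => foxDerivatives θ (φ (FreeGroup.of i)) j

/-- The polynomial `D(s, X) = det (X - foxMatrix)` with coefficients in `Laurent m`. -/
noncomputable def foxPolynomial {n m : ℕ}
    (θ : FreeGroup (Fin n) →* Multiplicative (Fin m → ℤ)) (φ : MulAut (FreeGroup (Fin n))) :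
    (Laurent m)[X] :=
  (foxMatrix θ φ).charpoly

/-- The polynomial `π` vanishes at a point `(χ, τ)`, `χ` a character of `ℤ^m` and `τ` a complex
number, all of whose coordinates are roots of unity of order dividing `k`. -/
def VanishesAtTorsion {m : ℕ} (k : ℕ) (π : (Laurent m)[X]) : Prop :=
  ∃ (χ : Multiplicative (Fin m → ℤ) →* ℂ) (τ : ℂ), (∀ z, χ z ^ k = 1) ∧ τ ^ k = 1 ∧
    Polynomial.eval₂ (MonoidAlgebra.lift ℚ ℂ (Multiplicative (Fin m → ℤ)) χ : Laurent m →+* ℂ)
      τ π = 0

/-- The Alexander polynomial criterion. -/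
theorem result {n m : ℕ} (φ : MulAut (FreeGroup (Fin n)))
    (θ : FreeGroup (Fin n) →* Multiplicative (Fin m → ℤ)) (hθ : ∀ f, θ (φ f) = θ f) :
    ((∀ π : (Laurent m)[X], Irreducible π → π ∣ foxPolynomial θ φ →
        ∃ k : ℕ, 0 < k ∧ VanishesAtTorsion k π) → TorusVRTFN φ) ∧
    ((∀ π : (Laurent m)[X], Irreducible π → π ∣ foxPolynomial θ φ → VanishesAtTorsion 1 π) →
        TorusRTFN φ) ∧
    (∀ q : (Laurent m)[X], foxPolynomial θ φ = (X - 1) * q → Irreducible q →
        (∃ a b : FreeGroup (Fin n), ∀ i j : ℤ, θ a ^ i * θ b ^ j = 1 → i = 0 ∧ j = 0) →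
        TorusRTFN φ) :=
  ⟨fun h => Pool.Agent.H8.AP.crit_one φ θ hθ h,
    fun h => Pool.Agent.H8.AP.crit_two φ θ hθ h,
    fun q hq hirr ⟨a, b, hr⟩ => Pool.Agent.H8.AP.crit_three φ θ hθ a b hr q hq hirr⟩

end Pool.Agent.Results.MP_065d68_al.AlexanderCriterion
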