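import Pool.Agent.H11.FC.MMain
import Pool.Agent.H11.FC.Statement

/-!
# Mapping tori and invariant free factor systems
-/

set_option autoImplicit false

namespace Pool.Agent.Results.MP_065d68_al.FactorSystems

open Monoid Pool.Agent.H11.FC.Statement

/-- The free product `(* A_j) * F(ι)`. -/
abbrev MultiExt {J : Type} (A : J → Type) [∀ j, Group (A j)] (ι : Type) : Type :=
  Coprod (CoprodI A) (FreeGroup ι)

/-- The inclusion of the factor `A_j`. -/
abbrev factor {J : Type} (A : J → Type) [∀ j, Group (A j)] (ι : Type) (j : J) :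
    A j →* MultiExt A ι :=
  (Coprod.inl : CoprodI A →* MultiExt A ι).comp CoprodI.of

/-- `φ` maps the factor `A_j` onto a conjugate of itself, by the automorphism `α_j`. -/
def ActsOnFactors {J ι : Type} (A : J → Type) [∀ j, Group (A j)] (α : ∀ j, MulAut (A j))
    (φ : MulAut (MultiExt A ι)) : Prop :=
  ∀ j : J, ∃ w : MultiExt A ι, ∀ a : A j,
    φ (factor A ι j a) = w * factor A ι j (α j a) * w⁻¹

/-- The commutator subgroup times the normal closure of the factors `A_j`. -/
def factorCommutator {J : Type} (A : J → Type) [∀ j, Group (A j)] (ι : Type) :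
    Subgroup (MultiExt A ι) :=
  ⁅(⊤ : Subgroup (MultiExt A ι)), (⊤ : Subgroup (MultiExt A ι))⁆ ⊔
    Subgroup.normalClosure (⋃ j, Set.range (factor A ι j))

/-- `φ` acts unipotently on the first homology relative to the factors `A_j`. -/
def RelativelyUnipotent {J ι : Type} (A : J → Type) [∀ j, Group (A j)]
    (φ : MulAut (MultiExt A ι)) : Prop :=
  ∃ e : ℕ, ∀ f : MultiExt A ι, (fun x => φ x * x⁻¹)^[e] f ∈ factorCommutator A ι

/-- Invariant free factor systems, some power unipotent on the relative first homology. -/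
theorem result {J ι : Type} [Finite J] [Finite ι] (A : J → Type) [∀ j, Group (A j)]
    (hfg : ∀ j, Group.FG (A j)) (α : ∀ j, MulAut (A j)) (φ : MulAut (MultiExt A ι))
    (hφ : ActsOnFactors A α φ) (hR : ∀ j, TorusRTFN (α j)) (p : ℕ) (hp : 0 < p)
    (hu : RelativelyUnipotent A (φ ^ p)) :
    TorusVRTFN φ ∧ (p = 1 → TorusRTFN φ) := by
  choose w hw using hφ
  obtain ⟨e, he⟩ := hu
  refine ⟨Pool.H11.FC.vrtfn_multi A hfg α φ w hw hR p hp e he, fun h1 => ?_⟩
  subst h1
  refine Pool.H11.FC.rtfn_multi A hfg α φ w hw hR e (fun f => ?_)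
  have := he f
  rwa [pow_one] at this

end Pool.Agent.Results.MP_065d68_al.FactorSystems
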