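import Pool.Agent.H11.FC.Built
import Pool.Agent.H11.FC.Statement

/-!
# Mapping tori and invariant free splittings: a closure theorem and a reduction of the question
-/

set_option autoImplicit false

namespace Pool.Agent.Results.MP_065d68_al.InvariantSplittings

open Monoid Pool.Agent.H11.FC.Statement

/-- `F = A * B` (by `e`), and `φ` acts by `α` on `A` and by `b ↦ c β(b) c⁻¹` on `B`, `c ∈ A`. -/
def OnFactors {A B F : Type} [Group A] [Group B] [Group F] (e : F ≃* Coprod A B) (α : MulAut A)
    (β : MulAut B) (c : A) (φ : MulAut F) : Prop :=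
  (∀ a : A, e (φ (e.symm (Coprod.inl a))) = Coprod.inl (α a)) ∧
    ∀ b : B, e (φ (e.symm (Coprod.inr b))) = Coprod.inl c * Coprod.inr (β b) * (Coprod.inl c)⁻¹

/-- `y` is `u x_j^{± 1} v` for a letter `x_j` and `u, v ∈ A`. -/
def IsTranslate {A ι : Type} [Group A] (y : FreeExt A ι) : Prop :=
  ∃ (u v : A) (j : ι) (ε : ℤ), (ε = 1 ∨ ε = -1) ∧ y = base ι u * letter A j ^ ε * base ι v

/-- `y` is a conjugate of a letter or of the inverse of a letter. -/
def IsConjugate {A ι : Type} [Group A] (y : FreeExt A ι) : Prop :=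
  ∃ (w : FreeExt A ι) (j : ι) (ε : ℤ), (ε = 1 ∨ ε = -1) ∧ y = w * letter A j ^ ε * w⁻¹

/-- `F = A * F(ι)` (by `e`), `φ` acts by `α` on `A`, and every letter is mapped to `u x^{± 1} v`
with `u, v ∈ A`, or every letter is mapped to a conjugate of a letter or of its inverse. -/
def OnLetters {A F ι : Type} [Group A] [Group F] (e : F ≃* FreeExt A ι) (α : MulAut A)
    (φ : MulAut F) : Prop :=
  (∀ a : A, e (φ (e.symm (base ι a))) = base ι (α a)) ∧
    ((∀ i : ι, IsTranslate (e (φ (e.symm (letter A i))))) ∨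
      ∀ i : ι, IsConjugate (e (φ (e.symm (letter A i)))))

/-- `φ` preserves a one-edge free splitting: up to an isomorphism, `F = A * B` with `A`, `B`
nontrivial, and `φ` maps `A` onto `A` and `B` onto `c B c⁻¹` with `c ∈ A`; or `F = A * ⟨x⟩`, and
`φ` maps `A` onto `A` and `x` to `u x^{± 1} v` with `u, v ∈ A`. -/
def PreservesSplitting {F : Type} [Group F] (φ : MulAut F) : Prop :=
  (∃ (A B : Type) (_ : Group A) (_ : Group B) (_ : Nontrivial A) (_ : Nontrivial B)
    (e : F ≃* Coprod A B) (α : MulAut A) (β : MulAut B) (c : A), OnFactors e α β c φ) ∨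
  ∃ (A : Type) (_ : Group A) (e : F ≃* FreeExt A Unit) (α : MulAut A),
    (∀ a : A, e (φ (e.symm (base Unit a))) = base Unit (α a)) ∧
    IsTranslate (e (φ (e.symm (letter A ()))))

/-- Some positive power of `φ`, up to an inner automorphism, preserves a one-edge free splitting. -/
def VirtuallyPreservesSplitting {F : Type} [Group F] (φ : MulAut F) : Prop :=
  ∃ (p : ℕ) (g : F), 0 < p ∧ PreservesSplitting (MulAut.conj g * φ ^ p)

/-- The mapping tori of the automorphisms of free groups of rank at most `n` of which no power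
preserves a one-edge free splitting are virtually residually torsion-free nilpotent. -/
def NoSplittingCase (n : ℕ) : Prop :=
  ∀ m, m ≤ n → ∀ ψ : MulAut (FreeGroup (Fin m)), ¬ VirtuallyPreservesSplitting ψ → TorusVRTFN ψ

/-- The automorphisms obtained by roots and by invariant free splittings from automorphisms of
finitely generated groups whose mapping tori are virtually residually torsion-free nilpotent, and
from automorphisms of free groups of rank `n` with `NoSplittingCase n`. -/
inductive Obtained : ∀ {F : Type} [Group F], MulAut F → Prop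
  | torus {F : Type} [Group F] (φ : MulAut F) (hF : Group.FG F) (h : TorusVRTFN φ) : Obtained φ
  | free (n : ℕ) (φ : MulAut (FreeGroup (Fin n))) (h : NoSplittingCase n) : Obtained φ
  | root {F : Type} [Group F] (φ : MulAut F) (p : ℕ) (g : F) (hp : 0 < p)
      (h : Obtained (MulAut.conj g * φ ^ p)) : Obtained φ
  | letters {A F ι : Type} [Group A] [Group F] [Finite ι] (e : F ≃* FreeExt A ι)
      (α : MulAut A) (φ : MulAut F) (hφ : OnLetters e α φ) (h : Obtained α) : Obtained φ
  | product {A B F : Type} [Group A] [Group B] [Group F] (e : F ≃* Coprod A B) (α : MulAut A)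
      (β : MulAut B) (c : A) (φ : MulAut F) (hφ : OnFactors e α β c φ) (h₁ : Obtained α)
      (h₂ : Obtained β) : Obtained φ

private theorem fg_of {F F' : Type} [Group F] [Group F'] (e : F ≃* F') (h : Group.FG F') :
    Group.FG F :=
  haveI := h
  Group.fg_of_surjective (f := e.symm.toMonoidHom) e.symm.surjective

private theorem aux {F : Type} [Group F] (φ : MulAut F) (h : Obtained φ) :
    Group.FG F ∧ TorusVRTFN φ := by
  induction h with
  | torus φ hF h => exact ⟨hF, h⟩
  | free n φ h =>
    exact ⟨inferInstance, Pool.H11.FC.reduction_le n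
      (fun m hm ψ hψ => h m hm ψ (fun hv => hψ (by
        obtain ⟨p, g, hp, hv⟩ := hv
        refine ⟨p, g, hp, ?_⟩
        rcases hv with ⟨A, B, iA, iB, nA, nB, e, α, β, c, h1, h2⟩ |
          ⟨A, iA, e, α, h1, u, v, _, ε, hε, h2⟩
        · exact Or.inl ⟨A, B, iA, iB, nA, nB, e, α, β, c, h1, h2⟩
        · exact Or.inr ⟨A, iA, e, α, u, v, ε, hε, h1, h2⟩))) φ⟩
  | root φ p g hp h ih =>
    refine ⟨ih.1, ?_⟩
    exact Pool.H11.FC.VRTFN_of_pow φ p hp (Pool.H11.FC.VRTFN_conj (φ ^ p) g ih.2)
  | @letters A F ι _ _ _ e α φ hφ h ih =>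
    obtain ⟨hφ, hx⟩ := hφ
    have hfg : Group.FG (FreeExt A ι) := Pool.H11.FC.fg_coprod ih.1 inferInstance
    refine ⟨fg_of e hfg, ?_⟩
    refine Pool.H11.FC.VRTFN_congr e.symm ((e.symm.trans φ).trans e) φ (fun x => ?_) ?_
    · change e.symm (e (φ (e.symm x))) = φ (e.symm x)
      rw [MulEquiv.symm_apply_apply]
    · rcases hx with hx | hx
      · exact Pool.H11.FC.vrtfn_split ih.1 α _ hφ hx ih.2
      · exact Pool.H11.FC.vrtfn_symm ih.1 α _ hφ hx ih.2
  | @product A B F _ _ _ e α β c φ hφ h₁ h₂ ih₁ ih₂ =>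
    refine ⟨fg_of e (Pool.H11.FC.fg_coprod ih₁.1 ih₂.1), ?_⟩
    refine Pool.H11.FC.VRTFN_congr e.symm ((e.symm.trans φ).trans e) φ (fun x => ?_)
      (Pool.H11.FC.vrtfn_amal ih₁.1 ih₂.1 α β _ c hφ.1 hφ.2 ih₁.2 ih₂.2)
    change e.symm (e (φ (e.symm x))) = φ (e.symm x)
    rw [MulEquiv.symm_apply_apply]

theorem result : ∀ {F : Type} [Group F] (φ : MulAut F), Obtained φ → TorusVRTFN φ :=
  fun φ h => (aux φ h).2

end Pool.Agent.Results.MP_065d68_al.InvariantSplittings
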