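import Pool.Agent.H11.FC.Crit1
import Pool.Agent.H11.FC.Statement

/-!
# A relative homological criterion for virtual residual torsion-free nilpotence of mapping tori
-/

set_option autoImplicit false

namespace Pool.Agent.Results.MP_065d68_al.RelativeCriterion

open Monoid Pool.Agent.H11.FC.Statement

/-- The homomorphism `A * F(ι) → A / N` which kills the free letters. -/
def killLetters {A : Type} [Group A] (ι : Type) (N : Subgroup A) [N.Normal] :
    FreeExt A ι →* A ⧸ N :=
  Coprod.lift (QuotientGroup.mk' N) 1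

/-- For `H = ker (killLetters ι N)`, the subgroup `[H, H] ⟨⟨N⟩⟩` of `A * F(ι)`: the quotient of `H`
by it is the part of the first homology of `H` which does not come from the conjugates of `N`. -/
def relCommutator {A : Type} [Group A] (ι : Type) (N : Subgroup A) [N.Normal] :
    Subgroup (FreeExt A ι) :=
  ⁅(killLetters ι N).ker, (killLetters ι N).ker⁆ ⊔
    Subgroup.normalClosure ((Coprod.inl : A →* FreeExt A ι) '' (N : Set A))

/-- The relative homological criterion. -/
theorem result {A : Type} [Group A] (hfg : Group.FG A) {ι : Type} [Finite ι] (N : Subgroup A)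
    [N.Normal] (hN : N.index ≠ 0) (α : MulAut A) (hα : ∀ a, α a * a⁻¹ ∈ N)
    (φ : MulAut (FreeExt A ι)) (hφ : ∀ a : A, φ (base ι a) = base ι (α a))
    (hx : ∀ i : ι, killLetters ι N (φ (letter A i)) = 1) (p : ℕ) (hp : 0 < p) (e : ℕ)
    (he : ∀ h ∈ (killLetters ι N).ker, (fun x => (φ ^ p) x * x⁻¹)^[e] h ∈ relCommutator ι N)
    (K : Subgroup (MappingTorus A α)) (hK : ∀ x : MappingTorus A α, x ∈ K ↔ x.left ∈ N)
    (hR : IsRTFN K) : TorusVRTFN φ :=
  Pool.H11.FC.crit1 hfg N hN α hα φ hφ hx p hp e he K hK hR

end Pool.Agent.Results.MP_065d68_al.RelativeCriterion
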